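import Pool.Agent.N64.AF.Defs

/-!
# Base change of a super realisation
-/

set_option autoImplicit false

open CategoryTheory Limits MonoidalCategory ModuleCat TensorProduct
open Functor.LaxMonoidal Functor.OplaxMonoidal
open Pool.Agent.Y112.SR Pool.Agent.N64.AF

namespace Pool.Agent.P8H24.SP

universe v u w

section Ext

variable (K : Type w) [Field K] (L : Type w) [Field L] [Algebra K L]

/-- Extension of scalars. -/
noncomputable abbrev EX : ModuleCat.{w} K ⥤ ModuleCat.{w} L :=
  ModuleCat.extendScalars (algebraMap K L)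

instance EX_additive : (EX K L).Additive :=
  (extendRestrictScalarsAdj (algebraMap K L)).left_adjoint_additive

set_option backward.isDefEq.respectTransparency.types false in
lemma EX_smul {X Y : ModuleCat.{w} K} (a : K) (f : X ⟶ Y) :
    (EX K L).map (a • f) = algebraMap K L a • (EX K L).map f := by
  let i : Algebra K L := ((algebraMap L L).comp (algebraMap K L)).toAlgebra
  apply ModuleCat.ExtendScalars.hom_ext
  intro m
  have h : (1 : L) ⊗ₜ[K] (a • (f m : Y)) = (a • (1 : L)) ⊗ₜ[K] (f m : Y) :=
    TensorProduct.tmul_smul a (1 : L) (f m)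
  have h2 : a • (1 : L) = algebraMap K L a * 1 := rfl
  rw [h2] at h
  exact h

set_option backward.isDefEq.respectTransparency.types false in
lemma EX_braid' (X Y : ModuleCat.{w} K) :
    (EX K L).map (β_ X Y).hom ≫ δ (EX K L) Y X =
      δ (EX K L) X Y ≫ (β_ ((EX K L).obj X) ((EX K L).obj Y)).hom :=
  ((extendRestrictScalarsAdj (algebraMap K L)).homEquiv _ _).injective
    (MonoidalCategory.tensor_ext (fun _ _ ↦ rfl))

lemma EX_braid (X Y : ModuleCat.{w} K) :
    μ (EX K L) X Y ≫ (EX K L).map (β_ X Y).hom =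
      (β_ ((EX K L).obj X) ((EX K L).obj Y)).hom ≫ μ (EX K L) Y X := by
  have h := EX_braid' K L X Y
  calc μ (EX K L) X Y ≫ (EX K L).map (β_ X Y).hom
      = μ (EX K L) X Y ≫ ((EX K L).map (β_ X Y).hom ≫ δ (EX K L) Y X) ≫ μ (EX K L) Y X := by
        rw [Category.assoc, Functor.Monoidal.δ_μ, Category.comp_id]
    _ = _ := by
        rw [h, Category.assoc, Functor.Monoidal.μ_δ_assoc]

end Ext

section Bc

variable {C : Type u} [Category.{v} C] [Preadditive C] [MonoidalCategory C]
  [SymmetricCategory C] {K : Type w} [Field K] (R : SuperRealisation C K)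
  (L : Type w) [Field L] [Algebra K L]

lemma comp_mu (X Y : C) : μ (R.H ⋙ EX K L) X Y =
    μ (EX K L) (R.H.obj X) (R.H.obj Y) ≫ (EX K L).map (μ R.H X Y) :=
  Functor.LaxMonoidal.comp_μ _ _ _ _

/-- Base change of a super realisation. -/
noncomputable def bc : SuperRealisation C L where
  H := R.H ⋙ EX K L
  finite X := by
    let i : Algebra K L := ((algebraMap L L).comp (algebraMap K L)).toAlgebra
    have := R.finite X
    exact Module.Finite.base_change K L (R.H.obj X)
  par X := (EX K L).map (R.par X)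
  par_sq X := by
    rw [← Functor.map_comp, R.par_sq, CategoryTheory.Functor.map_id]
    rfl
  par_natural f := by
    rw [Functor.comp_map, ← Functor.map_comp, R.par_natural, Functor.map_comp]
  par_unit := by
    rw [R.par_unit, CategoryTheory.Functor.map_id]
    rfl
  par_tensor X Y := by
    rw [comp_mu, Category.assoc, ← Functor.map_comp, R.par_tensor, Functor.map_comp,
      ← μ_natural_assoc]
  symm X Y := by
    have h := congrArg (EX K L).map (R.symm X Y)
    rw [EX_smul, map_ofNat, Functor.map_comp, Functor.map_comp, Functor.map_comp] at h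
    rw [comp_mu, comp_mu, Functor.comp_map, Category.assoc, ← Linear.comp_smul, h]
    rw [Functor.map_sub, Functor.map_add, Functor.map_add, CategoryTheory.Functor.map_id]
    have e1 : μ (EX K L) (R.H.obj X) (R.H.obj Y) ≫ (EX K L).map (R.par X ▷ R.H.obj Y) =
        (EX K L).map (R.par X) ▷ (EX K L).obj (R.H.obj Y) ≫ μ (EX K L) _ _ :=
      (μ_natural_left _ _ _).symm
    have e2 : μ (EX K L) (R.H.obj X) (R.H.obj Y) ≫ (EX K L).map (R.H.obj X ◁ R.par Y) =
        (EX K L).obj (R.H.obj X) ◁ (EX K L).map (R.par Y) ≫ μ (EX K L) _ _ :=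
      (μ_natural_right _ _ _).symm
    have e3 : μ (EX K L) (R.H.obj X) (R.H.obj Y) ≫ (EX K L).map (R.par X ⊗ₘ R.par Y) =
        ((EX K L).map (R.par X) ⊗ₘ (EX K L).map (R.par Y)) ≫ μ (EX K L) _ _ :=
      (μ_natural _ _ _).symm
    have e4 := EX_braid K L (R.H.obj X) (R.H.obj Y)
    have e5 : μ (EX K L) (R.H.obj X) (R.H.obj Y) ≫ (𝟙 _ + (EX K L).map (R.par X ▷ R.H.obj Y) +
        (EX K L).map (R.H.obj X ◁ R.par Y) - (EX K L).map (R.par X ⊗ₘ R.par Y)) =
        (𝟙 _ + (EX K L).map (R.par X) ▷ (EX K L).obj (R.H.obj Y) +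
          (EX K L).obj (R.H.obj X) ◁ (EX K L).map (R.par Y) -
          ((EX K L).map (R.par X) ⊗ₘ (EX K L).map (R.par Y))) ≫ μ (EX K L) _ _ := by
      rw [Preadditive.comp_sub, Preadditive.comp_add, Preadditive.comp_add, e1, e2, e3,
        Preadditive.sub_comp, Preadditive.add_comp, Preadditive.add_comp, Category.comp_id,
        Category.id_comp]
    rw [← Category.assoc (μ (EX K L) _ _), e5, Category.assoc, ← Category.assoc (μ (EX K L) _ _), e4,
      Category.assoc]
    rfl

end Bc

section Maps

variable (K : Type w) [Field K] (L : Type w) [Field L] [Algebra K L]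

/-- The base change of a linear map. -/
noncomputable def bm {V W : ModuleCat.{w} K} (e : V →ₗ[K] W) :
    (EX K L).obj V →ₗ[L] (EX K L).obj W :=
  ((EX K L).map (ModuleCat.ofHom e : V ⟶ W)).hom

variable {K}

lemma bm_hom {V W : ModuleCat.{w} K} (f : V ⟶ W) : bm K L f.hom = ((EX K L).map f).hom := rfl

lemma bm_comp {V W U : ModuleCat.{w} K} (e : V →ₗ[K] W) (f : W →ₗ[K] U) :
    bm K L (f ∘ₗ e) = bm K L f ∘ₗ bm K L e := by
  unfold bm
  rw [← ModuleCat.hom_comp, ← CategoryTheory.Functor.map_comp]
  rfl

lemma bm_id {V : ModuleCat.{w} K} : bm K L (LinearMap.id : V →ₗ[K] V) = LinearMap.id := by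
  unfold bm
  have h : (ModuleCat.ofHom (LinearMap.id : V →ₗ[K] V) : V ⟶ V) = 𝟙 V := rfl
  rw [h, CategoryTheory.Functor.map_id]
  rfl

lemma bm_add {V W : ModuleCat.{w} K} (e f : V →ₗ[K] W) :
    bm K L (e + f) = bm K L e + bm K L f := by
  unfold bm
  have h : (ModuleCat.ofHom (e + f) : V ⟶ W) = ModuleCat.ofHom e + ModuleCat.ofHom f := rfl
  rw [h, Functor.map_add]
  rfl

lemma bm_zero {V W : ModuleCat.{w} K} : bm K L (0 : V →ₗ[K] W) = 0 := by
  unfold bm
  have h : (ModuleCat.ofHom (0 : V →ₗ[K] W) : V ⟶ W) = 0 := rfl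
  rw [h, Functor.map_zero]
  rfl

lemma bm_smul {V W : ModuleCat.{w} K} (a : K) (e : V →ₗ[K] W) :
    bm K L (a • e) = algebraMap K L a • bm K L e := by
  unfold bm
  have h : (ModuleCat.ofHom (a • e) : V ⟶ W) = a • ModuleCat.ofHom e := rfl
  rw [h, EX_smul]
  rfl

set_option backward.isDefEq.respectTransparency.types false in
/-- The base change is injective on maps. -/
lemma bm_injective {V W : ModuleCat.{w} K} :
    Function.Injective (bm K L : (V →ₗ[K] W) → _) := by
  intro e f h
  let i : Algebra K L := ((algebraMap L L).comp (algebraMap K L)).toAlgebra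
  apply LinearMap.ext
  intro m
  have h2 := LinearMap.congr_fun h ((1 : L) ⊗ₜ[K] m)
  have h3 : (1 : L) ⊗ₜ[K] (e m) = (1 : L) ⊗ₜ[K] (f m) := h2
  exact Module.FaithfullyFlat.tensorProduct_mk_injective (A := K) (B := L) (W : Type w) h3

lemma EX_map_injective {V W : ModuleCat.{w} K} :
    Function.Injective ((EX K L).map : (V ⟶ W) → _) := by
  intro f g h
  apply ModuleCat.hom_ext
  apply bm_injective L
  rw [bm_hom, bm_hom, h]

set_option backward.isDefEq.respectTransparency.types false in
lemma finrank_EX (V : ModuleCat.{w} K) : Module.finrank L ((EX K L).obj V) = Module.finrank K V := by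
  let i : Algebra K L := ((algebraMap L L).comp (algebraMap K L)).toAlgebra
  exact Module.finrank_baseChange (R := L) (S := K) (M' := (V : Type w))

lemma bm_inj_of {V W : ModuleCat.{w} K} (e : V →ₗ[K] W) (h : Function.Injective e) :
    Function.Injective (bm K L e) := by
  obtain ⟨g, hg⟩ := e.exists_leftInverse_of_injective (LinearMap.ker_eq_bot.2 h)
  have h2 := bm_comp L e g
  rw [hg, bm_id] at h2
  intro x y hxy
  have h3 := LinearMap.congr_fun h2 x
  have h4 := LinearMap.congr_fun h2 y
  rw [LinearMap.id_apply, LinearMap.comp_apply] at h3 h4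
  rw [h3, h4, hxy]

lemma bm_surj_of {V W : ModuleCat.{w} K} (e : V →ₗ[K] W) (h : Function.Surjective e) :
    Function.Surjective (bm K L e) := by
  obtain ⟨g, hg⟩ := e.exists_rightInverse_of_surjective (LinearMap.range_eq_top.2 h)
  have h2 := bm_comp L g e
  rw [hg, bm_id] at h2
  intro x
  refine ⟨bm K L g x, ?_⟩
  have h3 := LinearMap.congr_fun h2 x
  rw [LinearMap.id_apply, LinearMap.comp_apply] at h3
  exact h3.symm

/-- The rank of a base change. -/
theorem rank_bm {V W : ModuleCat.{w} K} (e : V →ₗ[K] W) :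
    Module.finrank L (LinearMap.range (bm K L e)) = Module.finrank K (LinearMap.range e) := by
  let p : V →ₗ[K] (ModuleCat.of K (LinearMap.range e)) := e.rangeRestrict
  let j : (ModuleCat.of K (LinearMap.range e)) →ₗ[K] W := (LinearMap.range e).subtype
  have hp : Function.Surjective p := e.surjective_rangeRestrict
  have hj : Function.Injective j := (LinearMap.range e).injective_subtype
  have h1 : LinearMap.range (bm K L e) = LinearMap.range (bm K L j) := by
    have h0 : bm K L e = bm K L j ∘ₗ bm K L p := bm_comp L p j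
    rw [h0, LinearMap.range_comp, LinearMap.range_eq_top.2 (bm_surj_of L p hp),
      Submodule.map_top]
  rw [h1, LinearMap.finrank_range_of_inj (bm_inj_of L j hj), finrank_EX]

end Maps

section Bc2

variable {C : Type u} [Category.{v} C] [Preadditive C] [MonoidalCategory C]
  [SymmetricCategory C] {K : Type w} [Field K] (R : SuperRealisation C K)
  (L : Type w) [Field L] [Algebra K L]

lemma bc_map {X Y : C} (f : X ⟶ Y) : ((bc R L).H.map f).hom = bm K L (R.H.map f).hom := rfl

lemma bc_par (X : C) : ((bc R L).par X).hom = bm K L (R.par X).hom := rfl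

theorem cplus_bc (M : C) : (bc R L).CPlus M ↔ R.CPlus M := by
  unfold SuperRealisation.CPlus
  refine exists_congr fun f => ?_
  have e1 : (2 : L) • (bc R L).H.map f = (EX K L).map ((2 : K) • R.H.map f) := by
    rw [EX_smul, map_ofNat]
    rfl
  have e2 : 𝟙 _ + (bc R L).par M = (EX K L).map (𝟙 _ + R.par M) := by
    rw [Functor.map_add, CategoryTheory.Functor.map_id]
    rfl
  constructor
  · intro h
    exact EX_map_injective L (e1.symm.trans (h.trans e2))
  · intro h
    exact e1.trans ((congrArg (EX K L).map h).trans e2.symm)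

theorem bt_bc (X : C) : bt (bc R L) X = bt R X := finrank_EX L _

theorem ck_bc {X Y : C} {e : R.H.obj X →ₗ[K] R.H.obj Y} (he : e ∈ CK R X Y) :
    (bm K L e : (bc R L).H.obj X →ₗ[L] (bc R L).H.obj Y) ∈ CK (bc R L) X Y := by
  unfold CK at he ⊢
  induction he using Submodule.span_induction with
  | mem x hx =>
    obtain ⟨f, rfl⟩ := hx
    exact Submodule.subset_span ⟨f, rfl⟩
  | zero =>
    rw [bm_zero]
    exact Submodule.zero_mem _
  | add x y _ _ hx hy =>
    rw [bm_add]
    exact Submodule.add_mem _ hx hy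
  | smul a x _ hx =>
    rw [bm_smul]
    exact Submodule.smul_mem _ _ hx

end Bc2

end Pool.Agent.P8H24.SP
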