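import Pool.Agent.P8H25.SpStm

/-!
# Planar coherence for contracted endomorphisms
-/

set_option autoImplicit false

open CategoryTheory MonoidalCategory

namespace Pool.Agent.P8H24.SP

open Pool.Agent.P8H25 Pool.Agent.P8H25.Stm

universe v u

variable {C : Type u} [Category.{v} C] [MonoidalCategory C]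

lemma clr_star {A B B' Z Y Y' W' : C} (hY : 𝟙_ C ⟶ Y' ⊗ Y) (eY : Y' ⊗ Y ⟶ 𝟙_ C)
    (hB : 𝟙_ C ⟶ B ⊗ B') (eB : B ⊗ B' ⟶ 𝟙_ C)
    (X : A ⊗ (Z ⊗ Y') ⟶ A ⊗ (Z ⊗ Y')) (X' : (Y ⊗ W') ⊗ B ⟶ (Y ⊗ W') ⊗ B) :
    clr hB eB (Stm.star hY eY X X') =
      𝟙 _ ⊗≫ (A ⊗ Z) ◁ hY ▷ W' ⊗≫ X ▷ (Y ⊗ W') ⊗≫ (A ⊗ (Z ⊗ Y')) ◁ clr hB eB X' ⊗≫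
        (A ⊗ Z) ◁ eY ▷ W' ⊗≫ 𝟙 _ := by
  unfold clr Stm.star
  calc _ = 𝟙 _ ⊗≫ (A ⊗ Z) ◁ ((𝟙_ C) ◁ (W' ◁ hB) ≫ hY ▷ (W' ⊗ (B ⊗ B'))) ⊗≫
        X ▷ (Y ⊗ (W' ⊗ (B ⊗ B'))) ⊗≫ (A ⊗ (Z ⊗ Y')) ◁ X' ▷ B' ⊗≫
        (A ⊗ Z) ◁ (eY ▷ (W' ⊗ (B ⊗ B')) ≫ (𝟙_ C) ◁ (W' ◁ eB)) ⊗≫ 𝟙 _ := by monoidal
    _ = 𝟙 _ ⊗≫ (A ⊗ Z) ◁ (hY ▷ (W' ⊗ 𝟙_ C) ≫ (Y' ⊗ Y) ◁ (W' ◁ hB)) ⊗≫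
        X ▷ (Y ⊗ (W' ⊗ (B ⊗ B'))) ⊗≫ (A ⊗ (Z ⊗ Y')) ◁ X' ▷ B' ⊗≫
        (A ⊗ Z) ◁ ((Y' ⊗ Y) ◁ (W' ◁ eB) ≫ eY ▷ (W' ⊗ 𝟙_ C)) ⊗≫ 𝟙 _ := by
          rw [whisker_exchange hY, ← whisker_exchange eY]
    _ = 𝟙 _ ⊗≫ (A ⊗ Z) ◁ hY ▷ W' ⊗≫
        ((A ⊗ (Z ⊗ Y')) ◁ (Y ◁ (W' ◁ hB)) ≫ X ▷ (Y ⊗ (W' ⊗ (B ⊗ B')))) ⊗≫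
        (A ⊗ (Z ⊗ Y')) ◁ X' ▷ B' ⊗≫
        (A ⊗ Z) ◁ ((Y' ⊗ Y) ◁ (W' ◁ eB) ≫ eY ▷ (W' ⊗ 𝟙_ C)) ⊗≫ 𝟙 _ := by monoidal
    _ = 𝟙 _ ⊗≫ (A ⊗ Z) ◁ hY ▷ W' ⊗≫
        (X ▷ (Y ⊗ (W' ⊗ 𝟙_ C)) ≫ (A ⊗ (Z ⊗ Y')) ◁ (Y ◁ (W' ◁ hB))) ⊗≫
        (A ⊗ (Z ⊗ Y')) ◁ X' ▷ B' ⊗≫
        (A ⊗ Z) ◁ ((Y' ⊗ Y) ◁ (W' ◁ eB) ≫ eY ▷ (W' ⊗ 𝟙_ C)) ⊗≫ 𝟙 _ := by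
          rw [whisker_exchange X]
    _ = _ := by monoidal

lemma cll_star {A A' Z Y Y' W' : C} (hY : 𝟙_ C ⟶ Y' ⊗ Y) (eY : Y' ⊗ Y ⟶ 𝟙_ C)
    (hA : 𝟙_ C ⟶ A' ⊗ A) (eA : A' ⊗ A ⟶ 𝟙_ C)
    (X : A ⊗ (Z ⊗ Y') ⟶ A ⊗ (Z ⊗ Y')) (x' : Y ⊗ W' ⟶ Y ⊗ W') :
    cll hA eA (𝟙 _ ⊗≫ (A ⊗ Z) ◁ hY ▷ W' ⊗≫ X ▷ (Y ⊗ W') ⊗≫ (A ⊗ (Z ⊗ Y')) ◁ x' ⊗≫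
        (A ⊗ Z) ◁ eY ▷ W' ⊗≫ 𝟙 (A ⊗ (Z ⊗ W'))) =
      𝟙 _ ⊗≫ Z ◁ hY ▷ W' ⊗≫ cll hA eA X ▷ (Y ⊗ W') ⊗≫ (Z ⊗ Y') ◁ x' ⊗≫
        Z ◁ eY ▷ W' ⊗≫ 𝟙 _ := by
  unfold cll
  calc _ = 𝟙 _ ⊗≫ (hA ▷ (Z ⊗ (𝟙_ C ⊗ W')) ≫ (A' ⊗ A) ◁ (Z ◁ (hY ▷ W'))) ⊗≫
        A' ◁ X ▷ (Y ⊗ W') ⊗≫
        ((A' ⊗ A) ◁ ((Z ⊗ Y') ◁ x') ≫ eA ▷ ((Z ⊗ Y') ⊗ (Y ⊗ W'))) ⊗≫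
        Z ◁ eY ▷ W' ⊗≫ 𝟙 _ := ?_
    _ = 𝟙 _ ⊗≫ ((𝟙_ C) ◁ (Z ◁ (hY ▷ W')) ≫ hA ▷ (Z ⊗ ((Y' ⊗ Y) ⊗ W'))) ⊗≫
        A' ◁ X ▷ (Y ⊗ W') ⊗≫
        (eA ▷ ((Z ⊗ Y') ⊗ (Y ⊗ W')) ≫ (𝟙_ C) ◁ ((Z ⊗ Y') ◁ x')) ⊗≫
        Z ◁ eY ▷ W' ⊗≫ 𝟙 _ := by
          rw [← whisker_exchange hA, whisker_exchange eA]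
    _ = _ := by monoidal
  calc _ = 𝟙 _ ⊗≫ (hA ▷ (Z ⊗ (𝟙_ C ⊗ W')) ≫ (A' ⊗ A) ◁ (Z ◁ (hY ▷ W'))) ⊗≫
        A' ◁ X ▷ (Y ⊗ W') ⊗≫
        (A' ⊗ A) ◁ ((Z ⊗ Y') ◁ x') ⊗≫
        ((A' ⊗ A) ◁ (Z ◁ (eY ▷ W')) ≫ eA ▷ (Z ⊗ (𝟙_ C ⊗ W'))) ⊗≫ 𝟙 _ := by monoidal
    _ = 𝟙 _ ⊗≫ (hA ▷ (Z ⊗ (𝟙_ C ⊗ W')) ≫ (A' ⊗ A) ◁ (Z ◁ (hY ▷ W'))) ⊗≫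
        A' ◁ X ▷ (Y ⊗ W') ⊗≫
        (A' ⊗ A) ◁ ((Z ⊗ Y') ◁ x') ⊗≫
        (eA ▷ (Z ⊗ ((Y' ⊗ Y) ⊗ W')) ≫ (𝟙_ C) ◁ (Z ◁ (eY ▷ W'))) ⊗≫ 𝟙 _ := by
          rw [whisker_exchange eA]
    _ = _ := by monoidal

/-- Package COH. -/
theorem coh : S_COH (C := C) := by
  intro Z Z' Y Y' W W' A A' B B' eZ hY eY hW hA eA hB eB X X'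
  rw [clr_star, cll_star]
  generalize cll hA eA X = x
  generalize clr hB eB X' = x'
  unfold rot
  calc _ = 𝟙 _ ⊗≫ (Z' ⊗ Z) ◁ hY ⊗≫ Z' ◁ x ▷ Y ⊗≫
        (eZ ▷ ((Y' ⊗ Y) ⊗ 𝟙_ C) ≫ (𝟙_ C) ◁ ((Y' ⊗ Y) ◁ hW)) ⊗≫
        Y' ◁ x' ▷ W ⊗≫ eY ▷ (W' ⊗ W) ⊗≫ 𝟙 _ := by monoidal
    _ = 𝟙 _ ⊗≫ (Z' ⊗ Z) ◁ hY ⊗≫ Z' ◁ x ▷ Y ⊗≫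
        ((Z' ⊗ Z) ◁ ((Y' ⊗ Y) ◁ hW) ≫ eZ ▷ ((Y' ⊗ Y) ⊗ (W' ⊗ W))) ⊗≫
        Y' ◁ x' ▷ W ⊗≫ eY ▷ (W' ⊗ W) ⊗≫ 𝟙 _ := by rw [whisker_exchange eZ]
    _ = 𝟙 _ ⊗≫ (Z' ⊗ Z) ◁ hY ⊗≫
        Z' ◁ (x ▷ (Y ⊗ 𝟙_ C) ≫ (Z ⊗ Y') ◁ (Y ◁ hW)) ⊗≫
        (eZ ▷ (Y' ⊗ ((Y ⊗ W') ⊗ W)) ≫ (𝟙_ C) ◁ (Y' ◁ (x' ▷ W))) ⊗≫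
        eY ▷ (W' ⊗ W) ⊗≫ 𝟙 _ := by monoidal
    _ = 𝟙 _ ⊗≫ (Z' ⊗ Z) ◁ hY ⊗≫
        Z' ◁ ((Z ⊗ Y') ◁ (Y ◁ hW) ≫ x ▷ (Y ⊗ (W' ⊗ W))) ⊗≫
        ((Z' ⊗ Z) ◁ (Y' ◁ (x' ▷ W)) ≫ eZ ▷ (Y' ⊗ ((Y ⊗ W') ⊗ W))) ⊗≫
        eY ▷ (W' ⊗ W) ⊗≫ 𝟙 _ := by
          rw [← whisker_exchange x, whisker_exchange eZ]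
    _ = 𝟙 _ ⊗≫ (Z' ⊗ Z) ◁ (hY ▷ 𝟙_ C ≫ (Y' ⊗ Y) ◁ hW) ⊗≫
        Z' ◁ (x ▷ (Y ⊗ (W' ⊗ W))) ⊗≫
        (Z' ⊗ Z) ◁ (Y' ◁ (x' ▷ W)) ⊗≫
        (eZ ▷ ((Y' ⊗ Y) ⊗ (W' ⊗ W)) ≫ (𝟙_ C) ◁ (eY ▷ (W' ⊗ W))) ⊗≫ 𝟙 _ := by monoidal
    _ = 𝟙 _ ⊗≫ (Z' ⊗ Z) ◁ ((𝟙_ C) ◁ hW ≫ hY ▷ (W' ⊗ W)) ⊗≫
        Z' ◁ (x ▷ (Y ⊗ (W' ⊗ W))) ⊗≫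
        (Z' ⊗ Z) ◁ (Y' ◁ (x' ▷ W)) ⊗≫
        ((Z' ⊗ Z) ◁ (eY ▷ (W' ⊗ W)) ≫ eZ ▷ (𝟙_ C ⊗ (W' ⊗ W))) ⊗≫ 𝟙 _ := by
          rw [← whisker_exchange hY, whisker_exchange eZ]
    _ = _ := by monoidal

end Pool.Agent.P8H24.SP
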