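import Pool.Agent.P8H25.SpStm

/-!
# The trace of a rotated endomorphism
-/

set_option autoImplicit false

open CategoryTheory MonoidalCategory

namespace Pool.Agent.P8H24.SP

open Pool.Agent.P8H25 Pool.Agent.P8H25.Stm

universe v u

variable {C : Type u} [Category.{v} C] [MonoidalCategory C]

/-- The planar part of the computation. -/
lemma rot_close {Z Z' : C} (h : 𝟙_ C ⟶ Z' ⊗ Z) (e' : Z ⊗ Z' ⟶ 𝟙_ C) (η : 𝟙_ C ⟶ Z ⊗ Z')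
    (e : Z' ⊗ Z ⟶ 𝟙_ C) (zig : h ▷ Z' ⊗≫ Z' ◁ e' = ⊗𝟙.hom) (x : Z ⊗ Z' ⟶ Z ⊗ Z') :
    (h ⊗≫ (Z' ◁ η) ▷ Z ⊗≫ 𝟙 ((Z' ⊗ Z) ⊗ (Z' ⊗ Z))) ≫ (rot e h x) ▷ (Z' ⊗ Z) ≫
      (𝟙 _ ⊗≫ Z' ◁ (e' ▷ Z) ⊗≫ e) =
    h ⊗≫ Z' ◁ (η ≫ x) ▷ Z ⊗≫ e ▷ (Z' ⊗ Z) ⊗≫ e := by
  unfold rot
  calc _ = h ⊗≫ Z' ◁ η ▷ Z ⊗≫ (Z' ⊗ Z) ◁ h ▷ (Z' ⊗ Z) ⊗≫ Z' ◁ x ▷ (Z ⊗ (Z' ⊗ Z)) ⊗≫
        (e ▷ (Z' ⊗ ((Z ⊗ Z') ⊗ Z)) ≫ (𝟙_ C) ◁ (Z' ◁ (e' ▷ Z))) ⊗≫ e := by monoidal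
    _ = h ⊗≫ Z' ◁ η ▷ Z ⊗≫ (Z' ⊗ Z) ◁ h ▷ (Z' ⊗ Z) ⊗≫ Z' ◁ x ▷ (Z ⊗ (Z' ⊗ Z)) ⊗≫
        ((Z' ⊗ Z) ◁ (Z' ◁ (e' ▷ Z)) ≫ e ▷ (Z' ⊗ (𝟙_ C ⊗ Z))) ⊗≫ e := by
          rw [whisker_exchange]
    _ = h ⊗≫ Z' ◁ η ▷ Z ⊗≫ (Z' ⊗ Z) ◁ h ▷ (Z' ⊗ Z) ⊗≫
        Z' ◁ (x ▷ (Z ⊗ Z') ≫ (Z ⊗ Z') ◁ e') ▷ Z ⊗≫ e ▷ (Z' ⊗ Z) ⊗≫ e := by monoidal
    _ = h ⊗≫ Z' ◁ η ▷ Z ⊗≫ (Z' ⊗ Z) ◁ h ▷ (Z' ⊗ Z) ⊗≫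
        Z' ◁ ((Z ⊗ Z') ◁ e' ≫ x ▷ 𝟙_ C) ▷ Z ⊗≫ e ▷ (Z' ⊗ Z) ⊗≫ e := by
          rw [whisker_exchange]
    _ = h ⊗≫ Z' ◁ η ▷ Z ⊗≫ (Z' ⊗ Z) ◁ (h ▷ Z' ⊗≫ Z' ◁ e') ▷ Z ⊗≫
        Z' ◁ x ▷ Z ⊗≫ e ▷ (Z' ⊗ Z) ⊗≫ e := by monoidal
    _ = _ := by rw [zig]; monoidal

variable [SymmetricCategory C]

/-- A cap passes through a strand. -/
lemma nat1 {M M' : C} (e' : M ⊗ M' ⟶ 𝟙_ C) (P : C) :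
    (β_ M P).hom ▷ M' ⊗≫ P ◁ e' =
      𝟙 _ ⊗≫ M ◁ (β_ P M').hom ⊗≫ e' ▷ P ⊗≫ 𝟙 _ := by
  have h := BraidedCategory.braiding_naturality_right P e'
  rw [braiding_tensorUnit_right, BraidedCategory.braiding_tensor_right_hom] at h
  have h2 : P ◁ e' = ((α_ P M M').inv ≫ (β_ P M).hom ▷ M' ≫ (α_ M P M').hom ≫
      M ◁ (β_ P M').hom ≫ (α_ M M' P).inv) ≫ e' ▷ P ≫ (λ_ P).hom ≫ (ρ_ P).inv := by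
    rw [← Category.assoc _ (e' ▷ P), ← h]
    simp
  rw [h2]
  calc _ = 𝟙 _ ⊗≫ ((β_ M P).hom ≫ (β_ P M).hom) ▷ M' ⊗≫ M ◁ (β_ P M').hom ⊗≫
        e' ▷ P ⊗≫ 𝟙 _ := by monoidal
    _ = _ := by
      rw [SymmetricCategory.symmetry]
      monoidal

/-- A cap passes through a strand. -/
lemma nat2 {N N' : C} (e : N' ⊗ N ⟶ 𝟙_ C) (Q : C) :
    N' ◁ (β_ N Q).hom ⊗≫ (β_ N' Q).hom ▷ N ⊗≫ Q ◁ e ⊗≫ 𝟙 Q =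
      𝟙 _ ⊗≫ e ▷ Q ⊗≫ 𝟙 _ := by
  have h := BraidedCategory.braiding_naturality_left e Q
  rw [braiding_tensorUnit_left, BraidedCategory.braiding_tensor_left_hom] at h
  have h2 : e ▷ Q = ((α_ N' N Q).hom ≫ N' ◁ (β_ N Q).hom ≫ (α_ N' Q N).inv ≫
      (β_ N' Q).hom ▷ N ≫ (α_ Q N' N).hom) ≫ Q ◁ e ≫ (ρ_ Q).hom ≫ (λ_ Q).inv := by
    rw [← Category.assoc _ (Q ◁ e), ← h]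
    simp
  rw [h2]
  monoidal

/-- The evaluation of a tensor product, braided. -/
lemma braid_ev {M M' N N' : C} (eM : M' ⊗ M ⟶ 𝟙_ C) (eN : N' ⊗ N ⟶ 𝟙_ C) :
    (β_ (M ⊗ N) (N' ⊗ M')).hom ≫ (𝟙 _ ⊗≫ N' ◁ (eM ▷ N) ⊗≫ eN) =
      𝟙 _ ⊗≫ M ◁ (((β_ N N').hom ≫ eN) ▷ M') ⊗≫ ((β_ M M').hom ≫ eM) := by
  have h1 := nat1 ((β_ M M').hom ≫ eM) N'
  have h2 := nat2 eN M'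
  rw [BraidedCategory.braiding_tensor_left_hom, BraidedCategory.braiding_tensor_right_hom,
    BraidedCategory.braiding_tensor_right_hom]
  calc _ = 𝟙 _ ⊗≫ M ◁ (β_ N N').hom ▷ M' ⊗≫ M ◁ N' ◁ (β_ N M').hom ⊗≫
        ((β_ M N').hom ▷ M' ⊗≫ N' ◁ ((β_ M M').hom ≫ eM)) ▷ N ⊗≫ eN := by monoidal
    _ = 𝟙 _ ⊗≫ M ◁ (β_ N N').hom ▷ M' ⊗≫ M ◁ N' ◁ (β_ N M').hom ⊗≫
        (𝟙 _ ⊗≫ M ◁ (β_ N' M').hom ⊗≫ ((β_ M M').hom ≫ eM) ▷ N' ⊗≫ 𝟙 _) ▷ N ⊗≫ eN := by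
          rw [h1]
    _ = 𝟙 _ ⊗≫ M ◁ (β_ N N').hom ▷ M' ⊗≫ M ◁ N' ◁ (β_ N M').hom ⊗≫
        M ◁ (β_ N' M').hom ▷ N ⊗≫
        (((β_ M M').hom ≫ eM) ▷ (N' ⊗ N) ≫ (𝟙_ C) ◁ eN) ⊗≫ 𝟙 _ := by monoidal
    _ = 𝟙 _ ⊗≫ M ◁ (β_ N N').hom ▷ M' ⊗≫ M ◁ N' ◁ (β_ N M').hom ⊗≫
        M ◁ (β_ N' M').hom ▷ N ⊗≫
        ((M ⊗ M') ◁ eN ≫ ((β_ M M').hom ≫ eM) ▷ 𝟙_ C) ⊗≫ 𝟙 _ := by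
          rw [whisker_exchange]
    _ = 𝟙 _ ⊗≫ M ◁ (β_ N N').hom ▷ M' ⊗≫
        M ◁ (N' ◁ (β_ N M').hom ⊗≫ (β_ N' M').hom ▷ N ⊗≫ M' ◁ eN ⊗≫ 𝟙 M') ⊗≫
        ((β_ M M').hom ≫ eM) := by monoidal
    _ = _ := by
      rw [h2]
      monoidal

/-- The trace does not depend on the dual. -/
lemma trg_dual {N N' N'' : C} [ExactPairing N N'] [ExactPairing N N''] (a : N ⟶ N) :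
    trg (V := N) (V' := N') a = trg (V := N) (V' := N'') a := by
  obtain ⟨θ, h1, h2⟩ : ∃ θ : N'' ⟶ N', η_ N N'' ≫ N ◁ θ = η_ N N' ∧
      θ ▷ N ≫ ε_ N N' = ε_ N N'' := by
    refine ⟨@rightAdjointMate C _ _ N N ⟨N'⟩ ⟨N''⟩ (𝟙 N), ?_, ?_⟩
    · have h := @coevaluation_comp_rightAdjointMate C _ _ N N ⟨N'⟩ ⟨N''⟩ (𝟙 N)
      rw [id_whiskerRight, Category.comp_id] at h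
      exact h
    · have h := @rightAdjointMate_comp_evaluation C _ _ N N ⟨N'⟩ ⟨N''⟩ (𝟙 N)
      rw [MonoidalCategory.whiskerLeft_id, Category.id_comp] at h
      exact h
  unfold trg
  rw [← h1, Category.assoc, whisker_exchange_assoc, BraidedCategory.braiding_naturality_right_assoc,
    h2]

/-- The last step. -/
lemma close_last {Z Z' : C} [ExactPairing Z Z'] (y : 𝟙_ C ⟶ Z ⊗ Z') :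
    (η_ Z Z' ≫ (β_ Z Z').hom) ⊗≫ Z' ◁ y ▷ Z ⊗≫ ε_ Z Z' ▷ (Z' ⊗ Z) ⊗≫ ε_ Z Z' =
      y ≫ (β_ Z Z').hom ≫ ε_ Z Z' := by
  obtain ⟨φ, hφ⟩ : ∃ φ : Z' ⟶ Z', φ = 𝟙 _ ⊗≫ Z' ◁ y ⊗≫ ε_ Z Z' ▷ Z' ⊗≫ 𝟙 _ := ⟨_, rfl⟩
  have e1 : (η_ Z Z' ≫ (β_ Z Z').hom) ⊗≫ Z' ◁ y ▷ Z ⊗≫ ε_ Z Z' ▷ (Z' ⊗ Z) ⊗≫ ε_ Z Z' =
      η_ Z Z' ≫ (β_ Z Z').hom ≫ φ ▷ Z ≫ ε_ Z Z' := by
    rw [hφ]
    monoidal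
  have e2 : η_ Z Z' ≫ Z ◁ φ = y := by
    rw [hφ]
    calc _ = 𝟙 _ ⊗≫ (η_ Z Z' ▷ 𝟙_ C ≫ (Z ⊗ Z') ◁ y) ⊗≫ Z ◁ ε_ Z Z' ▷ Z' ⊗≫ 𝟙 _ := by monoidal
      _ = 𝟙 _ ⊗≫ ((𝟙_ C) ◁ y ≫ η_ Z Z' ▷ (Z ⊗ Z')) ⊗≫ Z ◁ ε_ Z Z' ▷ Z' ⊗≫ 𝟙 _ := by
        rw [← whisker_exchange]
      _ = y ⊗≫ (η_ Z Z' ▷ Z ⊗≫ Z ◁ ε_ Z Z') ▷ Z' ⊗≫ 𝟙 _ := by monoidal
      _ = _ := by
        rw [ExactPairing.evaluation_coevaluation'']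
        monoidal
  rw [e1, ← BraidedCategory.braiding_naturality_right_assoc, ← Category.assoc, e2]

/-- Package TRR. -/
theorem trr : S_TRR (C := C) := by
  intro Z Z' U' _ _ x
  let i1 : ExactPairing Z' Z := BraidedCategory.exactPairing_swap Z Z'
  have h1 : η_ Z' Z = η_ Z Z' ≫ (β_ Z' Z).inv := rfl
  have h2 : ε_ Z' Z = (β_ Z Z').hom ≫ ε_ Z Z' := rfl
  have h3 : (β_ Z' Z).inv = (β_ Z Z').hom := by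
    rw [← cancel_epi (β_ Z' Z).hom, Iso.hom_inv_id, SymmetricCategory.symmetry]
  rw [h3] at h1
  rw [← h1, trg_dual (N := Z' ⊗ Z) (N' := U') (N'' := Z' ⊗ Z)]
  unfold trg
  rw [ExactPairing.tensor_coevaluation, ExactPairing.tensor_evaluation, braid_ev]
  have h4 : (β_ Z' Z).hom ≫ ε_ Z' Z = ε_ Z Z' := by
    rw [h2, ← Category.assoc, SymmetricCategory.symmetry, Category.id_comp]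
  rw [h4, ← h2, rot_close (η_ Z' Z) (ε_ Z' Z) (η_ Z Z') (ε_ Z Z')
    (ExactPairing.evaluation_coevaluation'' Z' Z) x, h1, close_last, Category.assoc, h2]

end Pool.Agent.P8H24.SP
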